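import Mathlib
import Pool.Agent.L5helper5.CS.Main

/-!
# The weights of a word which begins with ones (MP_a57f33_nt.CommonSuffixes, helper30)
-/

set_option autoImplicit false

namespace Pool.Agent.L5helper30.CX

open Pool.Agent.H447R2.MZ (H H_nil H_cons H_cons_zero H_cons_succ H_nonneg H_mono)

/-- a block of harmonic terms -/
theorem block_ge (x : ℕ) : (3 / 2 : ℝ) * ((x : ℝ) + 1)⁻¹ ≤
    ∑ y ∈ (Finset.Ico (x ^ 2 + 2 * x) ((x + 1) ^ 2 + 2 * (x + 1)) : Finset ℕ), ((y : ℝ) + 1)⁻¹ := by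
  rcases Nat.lt_or_ge x 3 with hx | hx
  · interval_cases x
    · norm_num [Finset.sum_Ico_eq_sum_range, Finset.sum_range_succ]
    · norm_num [Finset.sum_Ico_eq_sum_range, Finset.sum_range_succ]
    · norm_num [Finset.sum_Ico_eq_sum_range, Finset.sum_range_succ]
  · have hx' : (3 : ℝ) ≤ x := by exact_mod_cast hx
    have h1 : ∀ y ∈ (Finset.Ico (x ^ 2 + 2 * x) ((x + 1) ^ 2 + 2 * (x + 1)) : Finset ℕ),
        (((x : ℝ) + 1) * (x + 3))⁻¹ ≤ ((y : ℝ) + 1)⁻¹ := by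
      intro y hy
      apply inv_anti₀ (by positivity)
      have h2 : y + 1 ≤ (x + 1) ^ 2 + 2 * (x + 1) := (Finset.mem_Ico.1 hy).2
      have h3 : ((y : ℝ) + 1) ≤ (x + 1) ^ 2 + 2 * (x + 1) := by exact_mod_cast h2
      nlinarith
    have h4 := Finset.card_nsmul_le_sum _ _ _ h1
    refine le_trans ?_ h4
    rw [Nat.card_Ico, nsmul_eq_mul]
    have h5 : ((x + 1) ^ 2 + 2 * (x + 1) - (x ^ 2 + 2 * x) : ℕ) = 2 * x + 3 := by
      have : (x + 1) ^ 2 + 2 * (x + 1) = x ^ 2 + 2 * x + (2 * x + 3) := by ring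
      omega
    rw [h5]
    push_cast
    rw [mul_inv, ← mul_assoc, mul_comm ((2 : ℝ) * x + 3), mul_assoc, mul_comm (3 / 2 : ℝ)]
    apply mul_le_mul_of_nonneg_left _ (by positivity)
    rw [← div_eq_mul_inv, le_div_iff₀ (by positivity)]
    linarith

theorem sum_blocks (g : ℕ → ℝ) (n : ℕ) :
    ∑ y ∈ Finset.range (n ^ 2 + 2 * n), g y =
      ∑ x ∈ Finset.range n, ∑ y ∈ Finset.Ico (x ^ 2 + 2 * x) ((x + 1) ^ 2 + 2 * (x + 1)), g y := by
  induction n with
  | zero => simp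
  | succ n ih =>
    rw [Finset.sum_range_succ, ← ih, Finset.range_eq_Ico, Finset.range_eq_Ico,
      Finset.sum_Ico_consecutive _ (Nat.zero_le _)]
    have : (n + 1) ^ 2 + 2 * (n + 1) = n ^ 2 + 2 * n + (2 * n + 3) := by ring
    omega

/-- Group the integers `y` in `(F (x - 1), F x]`, `F x = (x + 1) ^ 2 - 1`: `∑ 1 / y ≥ (3 / 2) / x` (for `x ≥ 4` there are
`2 x + 1` terms which are at least `1 / F x`; `x = 1, 2, 3` by computation). Induction on `m` with `H_mono`. -/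
theorem ones_ratio (m : ℕ) (q : List ℕ) (n : ℕ) :
    (3 / 2 : ℝ) ^ m * H (List.replicate m 1 ++ q) n ≤ H (List.replicate m 1 ++ q) (n ^ 2 + 2 * n) := by
  induction m generalizing n with
  | zero =>
    rw [pow_zero, one_mul]
    exact H_mono _ (by nlinarith [Nat.zero_le (n ^ 2)])
  | succ m ih =>
    rw [List.replicate_succ, List.cons_append, H_cons, H_cons, sum_blocks, Finset.mul_sum]
    refine Finset.sum_le_sum fun x _ => ?_
    set w := List.replicate m 1 ++ q with hw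
    have h1 : ∀ y ∈ (Finset.Ico (x ^ 2 + 2 * x) ((x + 1) ^ 2 + 2 * (x + 1)) : Finset ℕ),
        ((3 / 2 : ℝ) ^ m * H w x) * ((y : ℝ) + 1)⁻¹ ≤ H w y * ((y : ℝ) + 1)⁻¹ := by
      intro y hy
      apply mul_le_mul_of_nonneg_right _ (by positivity)
      exact (ih x).trans (H_mono _ (Finset.mem_Ico.1 hy).1)
    have h2 := Finset.sum_le_sum h1
    rw [← Finset.mul_sum] at h2
    have h3 := mul_le_mul_of_nonneg_left (block_ge x)
      (mul_nonneg (pow_nonneg (by norm_num : (0 : ℝ) ≤ 3 / 2) m) (H_nonneg w x))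
    calc (3 / 2 : ℝ) ^ (m + 1) * ((((x + 1 : ℕ) : ℝ) ^ 1)⁻¹ * H w x)
        = (3 / 2 : ℝ) ^ m * H w x * (3 / 2 * ((x : ℝ) + 1)⁻¹) := by
          push_cast
          ring
      _ ≤ _ := h3
      _ ≤ _ := h2
      _ = _ := by
          refine Finset.sum_congr rfl fun y _ => ?_
          push_cast
          ring

/-- Proof: the left side is at most `K N^2 H N`; the right side is at least the sum over `n + N` in `[F, 2 F)`,
`F = N ^ 2 + 2 N`, so at least `F (3 / 2) ^ m H N (2 F) ^ (- (b + J))`, and `2 F ≤ 6 N ^ 2`, `b + J ≤ (J + 1) b`; so it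
suffices that `6 κ ^ 2 ≤ 1`, `6 K κ ^ 2 ≤ 1`, `2 κ (J + 1) ≤ log (3 / 2)`. (The series converges as `b + J ≥ 2`, cf.
`Pool.Agent.L5helper5.CS.val_cons_eq`.) -/
theorem ones_tail (J : ℕ) (hJ : 1 ≤ J) (K : ℝ) (hK : 0 < K) : ∃ κ : ℝ, 0 < κ ∧ ∀ (m b : ℕ) (q : List ℕ), 1 ≤ b →
    (∀ x ∈ q, 1 ≤ x) → ∀ N : ℕ, 1 ≤ N → (N : ℝ) ≤ κ * Real.exp (κ * m / b) →
      K * N * ∑ n ∈ Finset.range N, H (List.replicate m 1 ++ q) n * (((n + 1 : ℕ) : ℝ) ^ b)⁻¹ ≤
        ∑' n : ℕ, H (List.replicate m 1 ++ q) (n + N) * (((n + N + 1 : ℕ) : ℝ) ^ (b + J))⁻¹ := by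
  set K' : ℝ := max K 1 with hK'
  have hK1 : 1 ≤ K' := le_max_right _ _
  have hKK : K ≤ K' := le_max_left _ _
  have hlog : 0 < Real.log (3 / 2) := Real.log_pos (by norm_num)
  set κ : ℝ := min (6 * K')⁻¹ (Real.log (3 / 2) / (2 * (J + 1))) with hκ
  have hκ0 : 0 < κ := lt_min (by positivity) (by positivity)
  have hκ1 : 6 * K' * κ ≤ 1 := by
    have h1 : κ ≤ (6 * K')⁻¹ := min_le_left _ _
    calc 6 * K' * κ ≤ 6 * K' * (6 * K')⁻¹ := mul_le_mul_of_nonneg_left h1 (by positivity)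
      _ = 1 := mul_inv_cancel₀ (by positivity)
  have hκ2 : 2 * κ * (J + 1) ≤ Real.log (3 / 2) := by
    have h1 : κ ≤ Real.log (3 / 2) / (2 * (J + 1)) := min_le_right _ _
    rw [le_div_iff₀ (by positivity)] at h1
    linarith
  have hκ3 : κ ≤ 1 := by nlinarith
  refine ⟨κ, hκ0, fun m b q hb hq N hN hNκ => ?_⟩
  set w := List.replicate m 1 ++ q with hw
  have hw1 : ∀ x ∈ w, 1 ≤ x := by
    intro x hx
    rw [hw, List.mem_append] at hx
    rcases hx with hx | hx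
    · rw [List.eq_of_mem_replicate hx]
    · exact hq x hx
  have hN' : (1 : ℝ) ≤ N := by exact_mod_cast hN
  have hb' : (1 : ℝ) ≤ b := by exact_mod_cast hb
  have hH0 := H_nonneg w N
  set F : ℕ := N ^ 2 + 2 * N with hF
  have hFN : N ≤ F := by rw [hF]; nlinarith [Nat.zero_le (N ^ 2)]
  have hFr : (F : ℝ) = N ^ 2 + 2 * N := by rw [hF]; push_cast; ring
  -- the left side
  have hleft : K * N * ∑ n ∈ Finset.range N, H w n * (((n + 1 : ℕ) : ℝ) ^ b)⁻¹ ≤
      K' * N ^ 2 * H w N := by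
    have h1 : ∀ n ∈ Finset.range N, H w n * (((n + 1 : ℕ) : ℝ) ^ b)⁻¹ ≤ H w N := by
      intro n hn
      have h2 : (((n + 1 : ℕ) : ℝ) ^ b)⁻¹ ≤ 1 := by
        apply inv_le_one_of_one_le₀
        apply one_le_pow₀
        exact_mod_cast Nat.succ_le_succ (Nat.zero_le n)
      calc H w n * (((n + 1 : ℕ) : ℝ) ^ b)⁻¹ ≤ H w n * 1 :=
            mul_le_mul_of_nonneg_left h2 (H_nonneg w n)
        _ = H w n := mul_one _
        _ ≤ H w N := H_mono w (Finset.mem_range.1 hn).le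
    have h2 := Finset.sum_le_card_nsmul _ _ _ h1
    rw [Finset.card_range, nsmul_eq_mul] at h2
    calc K * N * ∑ n ∈ Finset.range N, H w n * (((n + 1 : ℕ) : ℝ) ^ b)⁻¹
        ≤ K * N * (N * H w N) := mul_le_mul_of_nonneg_left h2 (by positivity)
      _ = K * (N ^ 2 * H w N) := by ring
      _ ≤ K' * (N ^ 2 * H w N) := mul_le_mul_of_nonneg_right hKK (by positivity)
      _ = K' * N ^ 2 * H w N := by ring
  -- the right side
  have hsum : Summable fun n : ℕ => H w (n + N) * (((n + N + 1 : ℕ) : ℝ) ^ (b + J))⁻¹ := by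
    have h1 := (Pool.Agent.L5helper5.CS.val_cons_eq (show 2 ≤ b + J by omega) hw1).2
    exact (summable_nat_add_iff N).2 h1
  have hright : (F : ℝ) * ((3 / 2) ^ m * H w N * ((2 * (F : ℝ)) ^ (b + J))⁻¹) ≤
      ∑' n : ℕ, H w (n + N) * (((n + N + 1 : ℕ) : ℝ) ^ (b + J))⁻¹ := by
    have h1 : ∀ n ∈ Finset.Ico (F - N) (2 * F - N),
        (3 / 2) ^ m * H w N * ((2 * (F : ℝ)) ^ (b + J))⁻¹ ≤
          H w (n + N) * (((n + N + 1 : ℕ) : ℝ) ^ (b + J))⁻¹ := by
      intro n hn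
      rw [Finset.mem_Ico] at hn
      have h2 : (3 / 2) ^ m * H w N ≤ H w (n + N) :=
        (ones_ratio m q N).trans (H_mono _ (by omega))
      have h3 : ((2 * (F : ℝ)) ^ (b + J))⁻¹ ≤ (((n + N + 1 : ℕ) : ℝ) ^ (b + J))⁻¹ := by
        apply inv_anti₀ (by positivity)
        apply pow_le_pow_left₀ (by positivity)
        exact_mod_cast (by omega : n + N + 1 ≤ 2 * F)
      exact mul_le_mul h2 h3 (by positivity) (H_nonneg _ _)
    have h4 := Finset.card_nsmul_le_sum _ _ _ h1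
    rw [Nat.card_Ico, nsmul_eq_mul, show 2 * F - N - (F - N) = F by omega] at h4
    exact h4.trans (hsum.sum_le_tsum _ fun n _ => mul_nonneg (H_nonneg _ _) (by positivity))
  refine hleft.trans (le_trans ?_ hright)
  -- the comparison
  have hFpos : (0 : ℝ) < F := by rw [hFr]; positivity
  have hpow : K' * (2 * (F : ℝ)) ^ (b + J) ≤ (3 / 2) ^ m := by
    have h1 : 2 * (F : ℝ) ≤ 6 * N ^ 2 := by rw [hFr]; nlinarith
    have h6N : 1 ≤ 6 * (N : ℝ) ^ 2 := by nlinarith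
    have h2 : (2 * (F : ℝ)) ^ (b + J) ≤ (6 * (N : ℝ) ^ 2) ^ ((J + 1) * b) := by
      refine (pow_le_pow_left₀ (by positivity) h1 _).trans ?_
      apply pow_le_pow_right₀ h6N
      nlinarith
    have h3 : K' ≤ K' ^ ((J + 1) * b) := by
      apply le_self_pow₀ hK1
      positivity
    have h4 : K' * (2 * (F : ℝ)) ^ (b + J) ≤ (K' * (6 * (N : ℝ) ^ 2)) ^ ((J + 1) * b) := by
      rw [mul_pow K']
      exact mul_le_mul h3 h2 (by positivity) (le_trans zero_le_one (h3.trans' hK1))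
    have h5 : K' * (6 * (N : ℝ) ^ 2) ≤ Real.exp (2 * (κ * m / b)) := by
      have h6 : (N : ℝ) ^ 2 ≤ (κ * Real.exp (κ * m / b)) ^ 2 := pow_le_pow_left₀ (by positivity) hNκ 2
      rw [mul_pow, ← Real.exp_nat_mul] at h6
      push_cast at h6
      have h7 : 0 < Real.exp (2 * (κ * m / b)) := Real.exp_pos _
      calc K' * (6 * (N : ℝ) ^ 2) ≤ K' * (6 * (κ ^ 2 * Real.exp (2 * (κ * m / b)))) := by gcongr
        _ = (6 * K' * κ) * κ * Real.exp (2 * (κ * m / b)) := by ring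
        _ ≤ 1 * 1 * Real.exp (2 * (κ * m / b)) := by gcongr
        _ = _ := by ring
    refine h4.trans ((pow_le_pow_left₀ (by positivity) h5 _).trans ?_)
    rw [← Real.exp_nat_mul, ← Real.exp_log (by norm_num : (0 : ℝ) < 3 / 2), ← Real.exp_nat_mul,
      Real.exp_le_exp]
    push_cast
    have h8 : ((J : ℝ) + 1) * b * (2 * (κ * m / b)) = m * (2 * κ * (J + 1)) := by
      field_simp
    rw [h8]
    exact mul_le_mul_of_nonneg_left hκ2 (by positivity)
  have hP : 0 < (2 * (F : ℝ)) ^ (b + J) := by positivity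
  calc K' * N ^ 2 * H w N = N ^ 2 * (K' * H w N) := by ring
    _ ≤ F * (K' * H w N) := by
        apply mul_le_mul_of_nonneg_right _ (by positivity)
        rw [hFr]; nlinarith
    _ ≤ F * ((3 / 2) ^ m * H w N * ((2 * (F : ℝ)) ^ (b + J))⁻¹) := by
        apply mul_le_mul_of_nonneg_left _ hFpos.le
        rw [← div_eq_mul_inv, le_div_iff₀ hP]
        calc K' * H w N * (2 * (F : ℝ)) ^ (b + J) = (K' * (2 * (F : ℝ)) ^ (b + J)) * H w N := by ring
          _ ≤ (3 / 2) ^ m * H w N := mul_le_mul_of_nonneg_right hpow hH0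

end Pool.Agent.L5helper30.CX
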