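import Mathlib
import Pool.Agent.L5helper5.CS.Main

/-!
# Tails of multiple zeta values of admissible words
-/

set_option autoImplicit false

namespace Pool.Agent.L5helper30.CX

open Filter Topology
open Pool.Agent.Q217.TT
open Pool.Agent.L5helper5.CS (T mono' T_nil summable_w H_zero_of_lt)
open Pool.Agent.H447R2.MZ (H H_nil H_cons H_cons_zero H_cons_succ H_nonneg H_mono Adm val tendsto_H H_le_val)

lemma adm_nil : Adm [] := ⟨fun a h => absurd h List.not_mem_nil, fun a t h => by simp at h⟩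

lemma adm_left {p : List ℕ} {s : ℕ} (h : Adm (p ++ [s])) : Adm p := by
  refine ⟨fun a ha => h.1 a (List.mem_append_left _ ha), fun a t hp => ?_⟩
  subst hp
  exact h.2 a (t ++ [s]) rfl

lemma adm_last {p : List ℕ} {s : ℕ} (h : Adm (p ++ [s])) : 1 ≤ s := h.1 s (by simp)

lemma adm_one {s : ℕ} (h : Adm [s]) : 2 ≤ s := h.2 s [] rfl

lemma adm_app {p : List ℕ} {s : ℕ} (h : Adm p) (hs : 1 ≤ s) (h0 : p = [] → 2 ≤ s) : Adm (p ++ [s]) := by
  refine ⟨fun a ha => ?_, fun a t hp => ?_⟩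
  · rcases List.mem_append.1 ha with h' | h'
    · exact h.1 a h'
    · rw [List.mem_singleton] at h'
      rw [h']; exact hs
  · cases p with
    | nil =>
      rw [List.nil_append] at hp
      rw [← (List.cons.inj hp).1]
      exact h0 rfl
    | cons b q =>
      rw [List.cons_append] at hp
      rw [← (List.cons.inj hp).1]
      exact h.2 b q rfl

lemma ep_self' (p : List ℕ) (s : ℕ) (M : ℕ) : ep (p ++ [s]) M M = 0 := by
  cases p with
  | nil => rw [List.nil_append, ep_self]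
  | cons a p => rw [List.cons_append, ep_self]

/-- the bound for the tails -/
lemma ep_adm (v : List ℕ) : v ≠ [] → Adm v.reverse → ∀ M N : ℕ, 1 ≤ M → M ≤ N →
    ep v.reverse M N ≤ 1 / (M : ℝ) - 1 / (N : ℝ) := by
  induction v with
  | nil => intro h; exact absurd rfl h
  | cons s v ih =>
    intro _ hadm M N hM hMN
    rw [List.reverse_cons] at hadm ⊢
    by_cases hv : v = []
    · subst hv
      rw [List.reverse_nil, List.nil_append] at hadm ⊢
      have hs := adm_one hadm
      refine le_trans ?_ (ep_two_le hM hMN)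
      rw [ep, ep]
      refine Finset.sum_le_sum fun n _ => ?_
      rw [ep_nil, mul_one, mul_one]
      apply inv_anti₀ (by positivity)
      exact pow_le_pow_right₀ (by exact_mod_cast (by omega : 1 ≤ n + 1)) hs
    · have hs := adm_last hadm
      have ih' := ih hv (adm_left hadm)
      obtain ⟨k, rfl⟩ := Nat.exists_eq_add_of_le hMN
      clear hMN
      induction k generalizing M with
      | zero => rw [Nat.add_zero, ep_self']; simp
      | succ k ihk =>
        have h1 := ihk (M + 1) (by omega)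
        have e : M + 1 + k = M + (k + 1) := by omega
        rw [e] at h1
        rw [ep_left _ _ (by omega : M + 1 ≤ M + (k + 1))]
        have h2 := ih' (M + 1) (M + (k + 1)) (by omega) (by omega)
        have hM' : (0 : ℝ) < M := by exact_mod_cast hM
        have h3 : (0 : ℝ) ≤ 1 / ((M + (k + 1) : ℕ) : ℝ) := by positivity
        have h4 : (((M + 1 : ℕ) : ℝ) ^ s)⁻¹ ≤ (((M + 1 : ℕ) : ℝ))⁻¹ := by
          apply inv_anti₀ (by positivity)
          calc ((M + 1 : ℕ) : ℝ) = ((M + 1 : ℕ) : ℝ) ^ 1 := (pow_one _).symm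
            _ ≤ ((M + 1 : ℕ) : ℝ) ^ s := pow_le_pow_right₀ (by exact_mod_cast (by omega : 1 ≤ M + 1)) hs
        have h5 : (((M + 1 : ℕ) : ℝ) ^ s)⁻¹ * ep v.reverse (M + 1) (M + (k + 1)) ≤
            (((M + 1 : ℕ) : ℝ))⁻¹ * (1 / ((M + 1 : ℕ) : ℝ)) :=
          mul_le_mul h4 (by linarith) (ep_nonneg _ _ _) (by positivity)
        have h6 : (((M + 1 : ℕ) : ℝ))⁻¹ * (1 / ((M + 1 : ℕ) : ℝ)) ≤ 1 / (M : ℝ) - 1 / ((M + 1 : ℕ) : ℝ) := by
          push_cast
          rw [div_sub_div _ _ hM'.ne' (by positivity), ← div_eq_inv_mul, div_div,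
            div_le_div_iff₀ (by positivity) (by positivity)]
          nlinarith
        linarith

lemma ep_inv {p : List ℕ} (hp : Adm p) (hne : p ≠ []) {M : ℕ} (hM : 1 ≤ M) (N : ℕ) : ep p M N ≤ 1 / (M : ℝ) := by
  rcases Nat.lt_or_ge N M with h | h
  · obtain ⟨s, q, rfl⟩ : ∃ s q, p = s :: q := List.exists_cons_of_ne_nil hne
    rw [ep, Finset.Ico_eq_empty (by omega), Finset.sum_empty]
    positivity
  · have h1 := ep_adm p.reverse (by simpa using hne) (by simpa using hp) M N hM h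
    rw [List.reverse_reverse] at h1
    have h2 : (0 : ℝ) ≤ 1 / (N : ℝ) := by positivity
    linarith

lemma ep_one {p : List ℕ} (hp : Adm p) {M : ℕ} (hM : 1 ≤ M) (N : ℕ) : ep p M N ≤ 1 := by
  by_cases hne : p = []
  · subst hne; rw [ep_nil]
  · refine (ep_inv hp hne hM N).trans ?_
    rw [div_le_one (by exact_mod_cast hM)]
    exact_mod_cast hM

lemma bdd {p : List ℕ} (hp : Adm p) {M : ℕ} (hM : 1 ≤ M) : BddAbove (Set.range fun N => ep p M (M + N)) := by
  refine ⟨1, ?_⟩
  rintro _ ⟨N, rfl⟩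
  exact ep_one hp hM _

lemma tendsto_ep {p : List ℕ} (hp : Adm p) {M : ℕ} (hM : 1 ≤ M) :
    Tendsto (fun N => ep p M N) atTop (𝓝 (T p M)) := by
  have h : Tendsto (fun N => ep p M (M + N)) atTop (𝓝 (T p M)) :=
    tendsto_atTop_ciSup (mono' p M) (bdd hp hM)
  have h1 : (fun N => ep p M (M + N)) = (fun N => ep p M N) ∘ (fun N => N + M) := by
    funext N
    rw [Function.comp, add_comm]
  rw [h1] at h
  exact (tendsto_add_atTop_iff_nat (f := fun N => ep p M N) M).1 h

lemma T_nonneg {p : List ℕ} (hp : Adm p) {M : ℕ} (hM : 1 ≤ M) : 0 ≤ T p M :=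
  ge_of_tendsto' (tendsto_ep hp hM) fun N => ep_nonneg p M N

lemma T_le_one {p : List ℕ} (hp : Adm p) {M : ℕ} (hM : 1 ≤ M) : T p M ≤ 1 :=
  le_of_tendsto' (tendsto_ep hp hM) fun N => ep_one hp hM N

lemma T_le_inv {p : List ℕ} (hp : Adm p) (hne : p ≠ []) {M : ℕ} (hM : 1 ≤ M) : T p M ≤ 1 / (M : ℝ) :=
  le_of_tendsto' (tendsto_ep hp hM) fun N => ep_inv hp hne hM N

/-- the recurrence of the tails -/
lemma T_rec {p : List ℕ} {s : ℕ} (hp : Adm (p ++ [s])) {M : ℕ} (hM : 1 ≤ M) :
    T (p ++ [s]) M = T (p ++ [s]) (M + 1) + (((M + 1 : ℕ) : ℝ) ^ s)⁻¹ * T p (M + 1) := by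
  have h1 := tendsto_ep hp hM
  have h2 := tendsto_ep hp (by omega : 1 ≤ M + 1)
  have h3 := (tendsto_ep (adm_left hp) (by omega : 1 ≤ M + 1)).const_mul (((M + 1 : ℕ) : ℝ) ^ s)⁻¹
  have h4 := h2.add h3
  refine tendsto_nhds_unique (h1.congr' ?_) h4
  filter_upwards [eventually_ge_atTop (M + 1)] with N hN
  exact ep_left p s hN

lemma T_zero {p : List ℕ} (hp : Adm p) (hne : p ≠ []) : Tendsto (T p) atTop (𝓝 0) := by
  have h1 : Tendsto (fun M : ℕ => 1 / (M : ℝ)) atTop (𝓝 0) := tendsto_one_div_atTop_nhds_zero_nat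
  refine tendsto_of_tendsto_of_tendsto_of_le_of_le' tendsto_const_nhds h1 ?_ ?_
  · filter_upwards [eventually_ge_atTop 1] with M hM
    exact T_nonneg hp hM
  · filter_upwards [eventually_ge_atTop 1] with M hM
    exact T_le_inv hp hne hM

lemma adm_word {u : List ℕ} (hu : Adm u) {b : ℕ} (hb : 1 ≤ b) {q : List ℕ} (hq : ∀ x ∈ q, 1 ≤ x)
    (h0 : u = [] → 2 ≤ b) : Adm (u ++ b :: q) := by
  refine ⟨fun a ha => ?_, fun a t h => ?_⟩
  · rcases List.mem_append.1 ha with h | h
    · exact hu.1 a h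
    · rcases List.mem_cons.1 h with rfl | h
      · exact hb
      · exact hq a h
  · cases u with
    | nil =>
      rw [List.nil_append] at h
      rw [← (List.cons.inj h).1]
      exact h0 rfl
    | cons s v =>
      rw [List.cons_append] at h
      rw [← (List.cons.inj h).1]
      exact hu.2 s v rfl

/-- the value of the word `u b q` -/
lemma val_eq {u : List ℕ} (hu : Adm u) (hne : u ≠ []) {b : ℕ} {q : List ℕ} (hb : 1 ≤ b) (hq : ∀ x ∈ q, 1 ≤ x) :
    val (u ++ b :: q) = ∑' n : ℕ, H q n * (((n + 1 : ℕ) : ℝ) ^ b)⁻¹ * T u (n + 1) := by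
  have hadm : Adm (u ++ b :: q) := adm_word hu hb hq fun h => absurd h hne
  have h1 := tendsto_H _ hadm
  have h2 : Tendsto (fun N => ∑' n : ℕ, if n < N then H q n * (((n + 1 : ℕ) : ℝ) ^ b)⁻¹ * ep u (n + 1) N else 0)
      atTop (𝓝 (∑' n : ℕ, H q n * (((n + 1 : ℕ) : ℝ) ^ b)⁻¹ * T u (n + 1))) := by
    refine tendsto_tsum_of_dominated_convergence (summable_w hb hq) (fun n => ?_) ?_
    · have h3 := (tendsto_ep hu (by omega : 1 ≤ n + 1)).const_mul (H q n * (((n + 1 : ℕ) : ℝ) ^ b)⁻¹)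
      refine h3.congr' ?_
      filter_upwards [eventually_gt_atTop n] with N hN
      rw [if_pos hN]
    · filter_upwards with N n
      split_ifs with h
      · have h4 : 0 ≤ H q n * (((n + 1 : ℕ) : ℝ) ^ b)⁻¹ := mul_nonneg (H_nonneg q n) (by positivity)
        rw [Real.norm_of_nonneg (mul_nonneg h4 (ep_nonneg _ _ _))]
        exact mul_le_mul_of_nonneg_left (ep_inv hu hne (by omega) N) h4
      · rw [norm_zero]
        exact mul_nonneg (mul_nonneg (H_nonneg q n) (by positivity)) (by positivity)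
  refine tendsto_nhds_unique h1 (h2.congr fun N => ?_)
  rw [H_app, tsum_eq_sum (s := Finset.range N)]
  · refine Finset.sum_congr rfl fun n hn => ?_
    rw [if_pos (Finset.mem_range.1 hn)]
  · intro n hn
    rw [if_neg (by rwa [Finset.mem_range] at hn)]

end Pool.Agent.L5helper30.CX
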