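import Mathlib
import Pool.Agent.L5helper30.CX.Tail

/-!
# The tails of the admissible words are linearly independent modulo rapidly decreasing sequences
-/

set_option autoImplicit false

namespace Pool.Agent.L5helper30.CX

open Filter Topology Polynomial Asymptotics
open Pool.Agent.TH507.HS (ev ev_ne_zero gr gr_eq gr_add gr_sub gr_mul gr_neg gr_zero gr_one gr_sum gr_pow KN kq
  kq_apply hyp no_tel sig sig_gr Hyp W mem_W W_mono mul_mem_W ev_ne ev_zero ev_one)
open Pool.Agent.L5helper5.CS
open Pool.Agent.H447R2.MZ (H H_nil H_cons H_cons_zero H_cons_succ H_nonneg H_mono Adm val tendsto_H H_le_val)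

lemma cf_zero {v : List ℕ} (hv : v ≠ []) : cf v 0 = 0 := by
  obtain ⟨s, q, rfl⟩ : ∃ s q, v = s :: q := List.exists_cons_of_ne_nil hv
  simp [cf, sumc]

lemma hasExp (v : List ℕ) (hv : Adm v.reverse) : HasExp (T v.reverse) (cf v) := by
  induction v with
  | nil =>
    refine hasExp_one.congr fun M _ => ?_
    rw [List.reverse_nil, T_nil]
  | cons s v ih =>
    rw [List.reverse_cons] at hv ⊢
    have hs : 1 ≤ s := adm_last hv
    rw [cf]
    obtain ⟨t, rfl⟩ : ∃ t, s = t + 1 := ⟨s - 1, by omega⟩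
    refine ((ih (adm_left hv)).divs (t + 1)).sum ?_ ?_ (CX.T_zero hv (by simp)) ?_
    · rw [Function.iterate_succ_apply', divc]
    · rw [Function.iterate_succ_apply', divc, divc]
      rcases Nat.eq_zero_or_pos t with rfl | ht
      · have hv0 : v ≠ [] := by
          rintro rfl
          have := adm_one hv
          omega
        rw [Function.iterate_zero, id, cf_zero hv0]
        simp
      · obtain ⟨t', rfl⟩ : ∃ t', t = t' + 1 := ⟨t - 1, by omega⟩
        rw [Function.iterate_succ_apply', divc]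
        simp
    · intro M hM
      have h1 := CX.T_rec hv hM
      linarith

/-- the word with positive letters -/
def up1 (v : List ℕ) : List ℕ := v.map (· + 1)

/-- the letters -/
noncomputable def fl1 (a : ℕ) (m : ℕ) : ℝ := - (((m + 1 : ℕ) : ℝ) ^ (a + 1))⁻¹

lemma isRat_fl1 (a : ℕ) : IsRat (fl1 a) := by
  rw [isRat_iff]
  refine ⟨-1, X ^ (a + 1), pow_ne_zero _ X_ne_zero, Eventually.of_forall fun m => ?_⟩
  simp [ev, fl1]
  rw [add_comm (1 : ℝ) (m : ℝ), neg_div, one_div]

open Classical in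
/-- the tails, and regularised sums for the words which are not admissible -/
noncomputable def Y : List ℕ → ℕ → ℝ
  | [] => fun _ => 1
  | a :: v => if Adm (up1 (a :: v)).reverse then T (up1 (a :: v)).reverse else
      fun M => ∑ m ∈ Finset.range M, fl1 a m * Y v (m + 1)

lemma Y_nil : Y [] = fun _ => 1 := by rw [Y]

lemma Y_adm {v : List ℕ} (h : Adm (up1 v).reverse) : Y v = T (up1 v).reverse := by
  cases v with
  | nil =>
    funext M
    rw [Y, up1, List.map_nil, List.reverse_nil, T_nil]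
  | cons a v => rw [Y, if_pos h]

lemma up1_rev (a : ℕ) (v : List ℕ) : (up1 (a :: v)).reverse = (up1 v).reverse ++ [a + 1] := by
  rw [up1, List.map_cons, List.reverse_cons, ← up1]

lemma Y_step (a : ℕ) (v : List ℕ) {M : ℕ} (hM : 1 ≤ M) :
    Y (a :: v) (M + 1) - Y (a :: v) M = fl1 a M * Y v (M + 1) := by
  by_cases h : Adm (up1 (a :: v)).reverse
  · have h' := h
    rw [up1_rev] at h'
    rw [Y_adm h, Y_adm (adm_left h'), up1_rev, CX.T_rec h' hM, fl1]
    ring
  · have e : Y (a :: v) = fun M => ∑ m ∈ Finset.range M, fl1 a m * Y v (m + 1) := by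
      rw [Y, if_neg h]
    rw [e]
    simp only
    rw [Finset.sum_range_succ]
    ring

lemma Y_bound (v : List ℕ) : ∃ C : ℝ, 0 ≤ C ∧ ∃ K : ℕ, ∀ M : ℕ, 1 ≤ M → |Y v M| ≤ C * (M : ℝ) ^ K := by
  induction v with
  | nil =>
    refine ⟨1, zero_le_one, 0, fun M _ => ?_⟩
    rw [Y_nil]; simp
  | cons a v ih =>
    by_cases h : Adm (up1 (a :: v)).reverse
    · refine ⟨1, zero_le_one, 0, fun M hM => ?_⟩
      rw [Y_adm h, abs_of_nonneg (CX.T_nonneg h hM), pow_zero, mul_one]
      exact CX.T_le_one h hM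
    · obtain ⟨C, hC, K, hK⟩ := ih
      refine ⟨C, hC, K + 1, fun M _ => ?_⟩
      have e : Y (a :: v) = fun M => ∑ m ∈ Finset.range M, fl1 a m * Y v (m + 1) := by
        rw [Y, if_neg h]
      rw [e]
      simp only
      refine (Finset.abs_sum_le_sum_abs _ _).trans ?_
      have h1 : ∀ m ∈ Finset.range M, |fl1 a m * Y v (m + 1)| ≤ C * (M : ℝ) ^ K := by
        intro m hm
        rw [Finset.mem_range] at hm
        have h2 := hK (m + 1) (by omega)
        have h3 : |fl1 a m| ≤ 1 := by
          rw [fl1, abs_neg, abs_of_nonneg (by positivity)]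
          apply inv_le_one_of_one_le₀
          apply one_le_pow₀
          exact_mod_cast (by omega : 1 ≤ m + 1)
        have h4 : ((m + 1 : ℕ) : ℝ) ^ K ≤ (M : ℝ) ^ K := by
          apply pow_le_pow_left₀ (by positivity)
          exact_mod_cast (by omega : m + 1 ≤ M)
        rw [abs_mul]
        calc |fl1 a m| * |Y v (m + 1)| ≤ 1 * (C * ((m + 1 : ℕ) : ℝ) ^ K) :=
              mul_le_mul h3 h2 (abs_nonneg _) zero_le_one
          _ ≤ C * (M : ℝ) ^ K := by
              rw [one_mul]
              exact mul_le_mul_of_nonneg_left h4 hC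
      refine (Finset.sum_le_sum h1).trans ?_
      rw [Finset.sum_const, Finset.card_range, nsmul_eq_mul, pow_succ]
      apply le_of_eq
      ring

lemma Y_mem (v : List ℕ) : Y v ∈ B := by
  obtain ⟨C, -, K, hK⟩ := Y_bound v
  refine ⟨K, IsBigO.of_bound C ?_⟩
  filter_upwards [eventually_ge_atTop 1] with m hm
  rw [Real.norm_eq_abs, Real.norm_of_nonneg (by positivity)]
  exact hK m hm

/-- the tails in the ring -/
noncomputable def yA (v : List ℕ) : RR := el (Y v) (Y_mem v)

lemma yA_step (a : ℕ) (v : List ℕ) : sg (yA (a :: v)) - yA (a :: v) = el (fl1 a) (isRat_fl1 a).mem * sg (yA v) := by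
  rw [yA, yA, sg_el, sg_el, el_sub, el_mul]
  refine el_congr _ _ ?_
  filter_upwards [eventually_ge_atTop 1] with m hm
  exact Y_step a v hm

lemma yA_sub (v : List ℕ) : sg (yA v) - yA v ∈ W KR yA v.length := by
  induction v with
  | nil =>
    have h1 : sg (yA []) = yA [] := by
      rw [yA, sg_el]
      refine el_congr _ _ (Eventually.of_forall fun m => ?_)
      rw [Y_nil]
    rw [h1, sub_self]
    exact (W _ _ _).zero_mem
  | cons a v ih =>
    rw [yA_step]
    have h1 := W_mono (K := KR) (y := yA) (Nat.le_succ v.length) ih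
    have h2 : yA v ∈ W KR yA (v.length + 1) := mem_W (Nat.lt_succ_self _)
    have h3 := (W KR yA _).add_mem h1 h2
    rw [sub_add_cancel] at h3
    exact mul_mem_W ⟨_, isRat_fl1 a, rfl⟩ h3

/-- the letters as positive numbers -/
def emb1 : ℕ ↪ ℕ+ := ⟨fun a => Nat.succPNat a, fun a b hab => by
  have := congrArg (fun x : ℕ+ => (x : ℕ)) hab
  simp only [Nat.succPNat_coe] at this
  omega⟩

lemma emb1_coe (a : ℕ) : ((emb1 a : ℕ+) : ℕ) = a + 1 := rfl

theorem hypA : Hyp KR yA sg (fun a => el (fl1 a) (isRat_fl1 a).mem) kR where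
  inv := hypR.inv
  nontriv := hypR.nontriv
  stable := hypR.stable
  fK := fun a => ⟨_, isRat_fl1 a, rfl⟩
  const := hypR.const
  nil := by
    rw [yA, ← el_one]
    refine el_congr _ _ (Eventually.of_forall fun m => ?_)
    rw [Y_nil]
  recu := by
    intro a w
    rw [yA_step, ← mul_sub]
    exact mul_mem_W ⟨_, isRat_fl1 a, rfl⟩ (yA_sub w)
  tel := by
    rintro A c ⟨a0, ha0, hc0⟩ _ ⟨f, hf, rfl⟩ hrel
    have hall : ∀ a, IsRat fun m => (c a : ℝ) * fl1 a m := fun a => (isRat_const (c a)).mul (isRat_fl1 a)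
    have hsumB : ∀ A : Finset ℕ, IsRat fun m => ∑ a ∈ A, (c a : ℝ) * fl1 a m := by
      classical
      intro A
      induction A using Finset.induction_on with
      | empty => simpa using isRat_const 0
      | insert x A hx ih =>
        have := (hall x).add ih
        convert this using 1
        funext m
        rw [Finset.sum_insert hx]
    have h1 : ∑ a ∈ A, kR (c a) * el (fl1 a) (isRat_fl1 a).mem =
        el (fun m => ∑ a ∈ A, (c a : ℝ) * fl1 a m) (hsumB A).mem := by
      rw [el_sum A (fun a m => (c a : ℝ) * fl1 a m) fun a => (hall a).mem]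
      exact Finset.sum_congr rfl fun a _ => rfl
    rw [h1, sg_el, el_sub, el_eq] at hrel
    have h2 : IsRat fun m => f (m + 1) - f m - ∑ a ∈ A, (c a : ℝ) * fl1 a m := by
      have := (hf.shift.add hf.neg).add (hsumB A).neg
      simpa [sub_eq_add_neg] using this
    have h3 := h2.zero_of_dec hrel
    rw [isRat_iff] at hf
    obtain ⟨P, Q, hQ, hfe⟩ := hf
    have hfe' := (tendsto_add_atTop_nat 1).eventually hfe
    obtain ⟨m0, hm0⟩ := (h3.and (hfe.and hfe')).exists_forall_of_atTop
    have key := no_tel 1 le_rfl (A.map emb1) (fun b => - c ((b : ℕ) - 1)) ⟨emb1 a0,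
      Finset.mem_map_of_mem _ ha0, by simpa [emb1_coe] using hc0⟩ P Q hQ m0
    refine key fun m hm => ?_
    obtain ⟨e1, e2, e3⟩ := hm0 m hm
    rw [Finset.sum_map]
    have e4 : ((ev P (1 + 1 * (m + 1)) / ev Q (1 + 1 * (m + 1)) - ev P (1 + 1 * m) / ev Q (1 + 1 * m) : ℚ) : ℝ) =
        ((∑ x ∈ A, - c x * ∑ j ∈ Finset.range 1, (1 / ((1 + 1 * m + j : ℕ) : ℚ)) ^ (x + 1) : ℚ) : ℝ) := by
      rw [Rat.cast_sub, ← e2, ← e3]
      push_cast
      have e5 : f (m + 1) - f m = ∑ a ∈ A, (c a : ℝ) * fl1 a m := by linarith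
      rw [e5]
      refine Finset.sum_congr rfl fun a _ => ?_
      rw [fl1]
      simp
      left
      rw [add_comm (1 : ℝ)]
    have e6 := Rat.cast_injective e4
    rw [e6]
    refine Finset.sum_congr rfl fun a _ => ?_
    rw [emb1_coe]
    simp

/-- a combination of the coefficient sequences vanishing identically is trivial -/
theorem coef_indep' (U : Finset (List ℕ)) (hU : ∀ v ∈ U, Adm (up1 v).reverse) (c : List ℕ → ℚ)
    (h : ∀ k, ∑ v ∈ U, c v * cf (up1 v) k = 0) : ∀ v ∈ U, c v = 0 := by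
  classical
  have hlen : ∃ t, ∀ w ∈ U, w.length < t := by
    refine ⟨∑ w ∈ U, w.length + 1, fun w hw => ?_⟩
    have := Finset.single_le_sum (f := fun w : List ℕ => w.length) (fun _ _ => Nat.zero_le _) hw
    omega
  obtain ⟨t, ht⟩ := hlen
  have h1 := hypA.indep t U (fun u => kR (c u)) ht (fun w => ⟨_, isRat_const _, rfl⟩) ?_
  · intro v hv
    have h2 := h1 v hv
    rw [kR_apply, ← el_zero, el_eq] at h2
    have h3 : IsRat fun _ : ℕ => (c v : ℝ) - 0 := by simpa using isRat_const (c v)
    obtain ⟨m, hm⟩ := (h3.zero_of_dec h2).exists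
    rw [sub_zero] at hm
    exact_mod_cast hm
  · have hm : ∀ v, (fun m => (c v : ℝ) * Y v m) ∈ B := fun v =>
      B.mul_mem (isRat_const (c v)).mem (Y_mem v)
    have hs : (fun m => ∑ v ∈ U, (c v : ℝ) * Y v m) ∈ B := by
      have := B.sum_mem (t := U) (f := fun v m => (c v : ℝ) * Y v m) fun i _ => hm i
      convert this using 1
      funext m
      simp
    have h2 : ∑ v ∈ U, kR (c v) * yA v = el (fun m => ∑ v ∈ U, (c v : ℝ) * Y v m) hs := by
      rw [el_sum U (fun v m => (c v : ℝ) * Y v m) hm]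
      exact Finset.sum_congr rfl fun v _ => rfl
    rw [h2, ← el_zero, el_eq]
    intro K
    have hex : ∀ v, ∃ C : ℝ, v ∈ U → ∀ M : ℕ, 1 ≤ M →
        |T (up1 v).reverse M - ∑ k ∈ Finset.range K, (cf (up1 v) k : ℝ) * rho k M| ≤ C * ((M : ℝ) ^ K)⁻¹ := by
      intro v
      by_cases hv : v ∈ U
      · obtain ⟨C, hC⟩ := hasExp (up1 v) (hU v hv) K
        exact ⟨C, fun _ => hC⟩
      · exact ⟨0, fun h => absurd h hv⟩
    choose C hC using hex
    refine IsBigO.of_bound (∑ v ∈ U, |(c v : ℝ)| * C v) ?_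
    filter_upwards [eventually_ge_atTop 1] with M hM
    have h3 : ∑ v ∈ U, (c v : ℝ) * Y v M - 0 =
        ∑ v ∈ U, (c v : ℝ) * (T (up1 v).reverse M - ∑ k ∈ Finset.range K, (cf (up1 v) k : ℝ) * rho k M) := by
      have h4 : ∑ v ∈ U, (c v : ℝ) * ∑ k ∈ Finset.range K, (cf (up1 v) k : ℝ) * rho k M = 0 := by
        have h5 : ∑ v ∈ U, (c v : ℝ) * ∑ k ∈ Finset.range K, (cf (up1 v) k : ℝ) * rho k M =
            ∑ k ∈ Finset.range K, ((∑ v ∈ U, c v * cf (up1 v) k : ℚ) : ℝ) * rho k M := by
          simp only [Finset.mul_sum]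
          rw [Finset.sum_comm]
          refine Finset.sum_congr rfl fun k _ => ?_
          push_cast
          rw [Finset.sum_mul]
          refine Finset.sum_congr rfl fun v _ => ?_
          ring
        rw [h5]
        refine Finset.sum_eq_zero fun k _ => ?_
        rw [h k, Rat.cast_zero, zero_mul]
      simp only [mul_sub, Finset.sum_sub_distrib]
      rw [h4]
      congr 1
      exact Finset.sum_congr rfl fun v hv => by rw [Y_adm (hU v hv)]
    rw [h3]
    refine (norm_sum_le _ _).trans ?_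
    rw [Finset.sum_mul, Real.norm_of_nonneg (show (0 : ℝ) ≤ ((M : ℝ) ^ K)⁻¹ by positivity)]
    refine Finset.sum_le_sum fun v hv => ?_
    rw [norm_mul, mul_assoc, Real.norm_eq_abs, Real.norm_eq_abs]
    exact mul_le_mul_of_nonneg_left (hC v hv M hM) (abs_nonneg _)

end Pool.Agent.L5helper30.CX
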