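import Mathlib
import Pool.Agent.L5helper30.CX.Ring

/-!
# Linear forms in the multiple zeta values `ζ(u b q)`, `u` admissible
-/

set_option autoImplicit false

namespace Pool.Agent.L5helper30.CX

open Filter Topology
open Pool.Agent.L5helper5.CS
open Pool.Agent.H447R2.MZ (H H_nil H_cons H_cons_zero H_cons_succ H_nonneg H_mono Adm val tendsto_H H_le_val)

/-- finitely many coefficients suffice -/
lemma coef_fin1 (U : Finset (List ℕ)) (hU : ∀ v ∈ U, Adm (up1 v).reverse) : ∃ J : ℕ, 1 ≤ J ∧ ∀ c : List ℕ → ℚ,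
    (∀ k < J, ∑ v ∈ U, c v * cf (up1 v) k = 0) → ∀ v ∈ U, c v = 0 := by
  classical
  let K : ℕ → Submodule ℚ (U → ℚ) := fun M =>
    { carrier := {c | ∀ n < M, ∑ u : U, c u * cf (up1 u.1) n = 0}
      zero_mem' := by intro n _; simp
      add_mem' := by
        intro a b ha hb n hn
        have := ha n hn
        have := hb n hn
        simp only [Pi.add_apply, add_mul, Finset.sum_add_distrib]
        rw [ha n hn, hb n hn, add_zero]
      smul_mem' := by
        intro q a ha n hn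
        simp only [Pi.smul_apply, smul_eq_mul, mul_assoc]
        rw [← Finset.mul_sum, ha n hn, mul_zero] }
  let F : ℕ →o (Submodule ℚ (U → ℚ))ᵒᵈ :=
    ⟨fun M => OrderDual.toDual (K M), fun a b hab c hc n hn => hc n (hn.trans_le hab)⟩
  obtain ⟨M, hM⟩ := IsArtinian.monotone_stabilizes F
  refine ⟨M + 1, by omega, fun c hc => ?_⟩
  have h1 : (fun u : U => c u.1) ∈ K M := by
    intro n hn
    rw [← hc n (by omega), ← Finset.sum_coe_sort U]
  refine coef_indep' U hU c fun n => ?_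
  have h2 : K M = K (max M (n + 1)) := hM (max M (n + 1)) (le_max_left _ _)
  rw [h2] at h1
  have h3 := h1 n (lt_of_lt_of_le (Nat.lt_succ_self n) (le_max_right _ _))
  rw [← h3, ← Finset.sum_coe_sort U]

/-- a common denominator -/
lemma coef_den1 (U : Finset (List ℕ)) (J : ℕ) : ∃ D : ℕ, 1 ≤ D ∧ ∀ (c : List ℕ → ℤ), ∀ k < J,
    ∑ v ∈ U, (c v : ℚ) * cf (up1 v) k ≠ 0 → 1 / (D : ℚ) ≤ |∑ v ∈ U, (c v : ℚ) * cf (up1 v) k| := by
  classical
  refine ⟨∏ u ∈ U, ∏ n ∈ Finset.range J, (cf (up1 u) n).den, ?_, ?_⟩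
  · exact Nat.succ_le_of_lt (Finset.prod_pos fun u _ => Finset.prod_pos fun n _ => Rat.den_pos _)
  · intro c n hn hne
    set D := ∏ u ∈ U, ∏ n ∈ Finset.range J, (cf (up1 u) n).den with hD
    have hD0 : 0 < D := Finset.prod_pos fun u _ => Finset.prod_pos fun n _ => Rat.den_pos _
    have h1 : ∀ u ∈ U, ∃ z : ℤ, (D : ℚ) * cf (up1 u) n = z := by
      intro u hu
      have h2 : (cf (up1 u) n).den ∣ D :=
        (Finset.dvd_prod_of_mem (fun n => (cf (up1 u) n).den) (Finset.mem_range.2 hn)).trans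
          (Finset.dvd_prod_of_mem (fun u => ∏ n ∈ Finset.range J, (cf (up1 u) n).den) hu)
      obtain ⟨k, hk⟩ := h2
      refine ⟨k * (cf (up1 u) n).num, ?_⟩
      rw [hk]
      push_cast
      have h3 := Rat.mul_den_eq_num (cf (up1 u) n)
      rw [← h3]
      ring
    choose! z hz using h1
    have h4 : (D : ℚ) * ∑ u ∈ U, (c u : ℚ) * cf (up1 u) n = ((∑ u ∈ U, c u * z u : ℤ) : ℚ) := by
      rw [Finset.mul_sum]
      push_cast
      refine Finset.sum_congr rfl fun u hu => ?_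
      rw [← hz u hu]
      ring
    have hDq : (0 : ℚ) < D := by exact_mod_cast hD0
    have h5 : (∑ u ∈ U, c u * z u : ℤ) ≠ 0 := by
      intro h
      rw [h, Int.cast_zero] at h4
      rcases mul_eq_zero.1 h4 with h | h
      · exact hDq.ne' h
      · exact hne h
    have h6 : (1 : ℚ) ≤ |((∑ u ∈ U, c u * z u : ℤ) : ℚ)| := by
      rw [← Int.cast_abs]
      exact_mod_cast Int.one_le_abs h5
    rw [← h4, abs_mul, abs_of_pos hDq] at h6
    rw [div_le_iff₀ hDq, mul_comm]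
    exact h6

/-- the linear form in the tails -/
noncomputable def LF1 (U : Finset (List ℕ)) (c : List ℕ → ℤ) (M : ℕ) : ℝ :=
  ∑ v ∈ U, (c v : ℝ) * T (up1 v).reverse M

/-- beyond a multiple of the height the linear form has a sign and is not small -/
lemma sign1 (U : Finset (List ℕ)) (hU : ∀ v ∈ U, Adm (up1 v).reverse) : ∃ κ : ℝ, 0 < κ ∧ ∃ J : ℕ, 1 ≤ J ∧ ∀ c : List ℕ → ℤ, (∃ v ∈ U, c v ≠ 0) →
    ∀ h : ℝ, (∀ v ∈ U, |(c v : ℝ)| ≤ h) → ∃ s : ℝ, (s = 1 ∨ s = -1) ∧
      ∀ M : ℕ, 1 ≤ M → h ≤ κ * M → κ * ((M : ℝ) ^ J)⁻¹ ≤ s * LF1 U c M := by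
  classical
  obtain ⟨J, hJ1, hJ⟩ := coef_fin1 U hU
  obtain ⟨D, hD1, hD⟩ := coef_den1 U J
  have hex : ∀ v, ∃ C : ℝ, 0 ≤ C ∧ (v ∈ U → ∀ M : ℕ, 1 ≤ M →
      |T (up1 v).reverse M - ∑ k ∈ Finset.range J, (cf (up1 v) k : ℝ) * rho k M| ≤ C * ((M : ℝ) ^ J)⁻¹) := by
    intro v
    by_cases hv : v ∈ U
    · obtain ⟨C, hC⟩ := hasExp (up1 v) (hU v hv) J
      have h1 := (abs_nonneg _).trans (hC 1 le_rfl)
      exact ⟨C, by simpa using h1, fun _ => hC⟩
    · exact ⟨0, le_rfl, fun h => absurd h hv⟩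
  choose C hC0 hC using hex
  -- the constants
  set A : ℝ := ∑ v ∈ U, ∑ k ∈ Finset.range J, |(cf (up1 v) k : ℝ)| with hA
  set B' : ℝ := ∑ v ∈ U, C v with hB
  have hA0 : 0 ≤ A := Finset.sum_nonneg fun _ _ => Finset.sum_nonneg fun _ _ => abs_nonneg _
  have hB0 : 0 ≤ B' := Finset.sum_nonneg fun v _ => hC0 v
  set E : ℝ := (((1 + J : ℕ) : ℝ) ^ J)⁻¹ with hE
  have hE0 : 0 < E := by rw [hE]; positivity
  have hDr : (0 : ℝ) < D := by exact_mod_cast hD1
  set e : ℝ := E / D with he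
  have he0 : 0 < e := div_pos hE0 hDr
  set κ : ℝ := min (e / 2) (e / (2 * (A + B' + 1))) with hκ
  have hκ0 : 0 < κ := lt_min (by positivity) (by positivity)
  refine ⟨κ, hκ0, J, hJ1, fun c hc h hh => ?_⟩
  have hh0 : 0 ≤ h := by
    obtain ⟨v, hv, -⟩ := hc
    exact (abs_nonneg _).trans (hh v hv)
  set a : ℕ → ℚ := fun k => ∑ v ∈ U, (c v : ℚ) * cf (up1 v) k with ha
  have hne : ∃ k, k < J ∧ a k ≠ 0 := by
    by_contra hcon
    push Not at hcon
    obtain ⟨v, hv, hcv⟩ := hc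
    have := hJ (fun v => (c v : ℚ)) hcon v hv
    exact hcv (by exact_mod_cast this)
  set j := Nat.find hne with hj
  obtain ⟨hjJ, hja⟩ := Nat.find_spec hne
  have hjmin : ∀ k, k < j → a k = 0 := by
    intro k hk
    have := Nat.find_min hne hk
    push Not at this
    exact this (by omega)
  have hja' : 1 / (D : ℝ) ≤ |(a j : ℝ)| := by
    have h1 : 1 / (D : ℚ) ≤ |a j| := hD c j hjJ hja
    have h2 : ((1 / (D : ℚ) : ℚ) : ℝ) ≤ ((|a j| : ℚ) : ℝ) := Rat.cast_le.2 h1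
    rw [Rat.cast_abs, Rat.cast_div, Rat.cast_one, Rat.cast_natCast] at h2
    exact h2
  -- the expansion of the linear form
  have hexp : ∀ M : ℕ, 1 ≤ M → |LF1 U c M - (a j : ℝ) * rho j M| ≤ h * (A + B') * ((M : ℝ) ^ (j + 1))⁻¹ := by
    intro M hM
    have hM' : (1 : ℝ) ≤ M := by exact_mod_cast hM
    have h1 : LF1 U c M - (a j : ℝ) * rho j M =
        ∑ v ∈ U, (c v : ℝ) * (T (up1 v).reverse M - ∑ k ∈ Finset.range J, (cf (up1 v) k : ℝ) * rho k M) +
        ∑ k ∈ Finset.Ico (j + 1) J, (a k : ℝ) * rho k M := by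
      have h2 : ∑ k ∈ Finset.range J, (a k : ℝ) * rho k M =
          (a j : ℝ) * rho j M + ∑ k ∈ Finset.Ico (j + 1) J, (a k : ℝ) * rho k M := by
        rw [Finset.range_eq_Ico, ← Finset.sum_Ico_consecutive _ (Nat.zero_le j) hjJ.le,
          Finset.sum_eq_sum_Ico_succ_bot hjJ]
        rw [Finset.sum_eq_zero fun k hk => by rw [hjmin k (Finset.mem_Ico.1 hk).2, Rat.cast_zero, zero_mul],
          zero_add]
      have h3 : ∑ k ∈ Finset.range J, (a k : ℝ) * rho k M =
          ∑ v ∈ U, (c v : ℝ) * ∑ k ∈ Finset.range J, (cf (up1 v) k : ℝ) * rho k M := by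
        simp only [Finset.mul_sum]
        rw [Finset.sum_comm]
        refine Finset.sum_congr rfl fun k _ => ?_
        rw [ha]
        push_cast
        rw [Finset.sum_mul]
        refine Finset.sum_congr rfl fun v _ => ?_
        ring
      simp only [mul_sub, Finset.sum_sub_distrib]
      rw [← h3, h2, LF1]
      ring
    rw [h1]
    refine (abs_add_le _ _).trans ?_
    have h4 : |∑ v ∈ U, (c v : ℝ) * (T (up1 v).reverse M - ∑ k ∈ Finset.range J, (cf (up1 v) k : ℝ) * rho k M)| ≤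
        h * B' * ((M : ℝ) ^ (j + 1))⁻¹ := by
      refine (Finset.abs_sum_le_sum_abs _ _).trans ?_
      rw [hB, Finset.mul_sum, Finset.sum_mul]
      refine Finset.sum_le_sum fun v hv => ?_
      rw [abs_mul, mul_assoc]
      refine mul_le_mul (hh v hv) ((hC v hv M hM).trans ?_) (abs_nonneg _) hh0
      refine mul_le_mul_of_nonneg_left ?_ (hC0 v)
      apply inv_anti₀ (by positivity)
      exact pow_le_pow_right₀ hM' (by omega)
    have h5 : |∑ k ∈ Finset.Ico (j + 1) J, (a k : ℝ) * rho k M| ≤ h * A * ((M : ℝ) ^ (j + 1))⁻¹ := by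
      refine (Finset.abs_sum_le_sum_abs _ _).trans ?_
      have h6 : ∀ k ∈ Finset.Ico (j + 1) J, |(a k : ℝ) * rho k M| ≤
          (h * ∑ v ∈ U, |(cf (up1 v) k : ℝ)|) * ((M : ℝ) ^ (j + 1))⁻¹ := by
        intro k hk
        rw [abs_mul, abs_of_nonneg (rho_nonneg k M)]
        refine mul_le_mul ?_ ((rho_le hM k).trans ?_) (rho_nonneg k M) (by positivity)
        · rw [ha]
          push_cast
          refine (Finset.abs_sum_le_sum_abs _ _).trans ?_
          rw [Finset.mul_sum]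
          refine Finset.sum_le_sum fun v hv => ?_
          rw [abs_mul]
          exact mul_le_mul_of_nonneg_right (hh v hv) (abs_nonneg _)
        · apply inv_anti₀ (by positivity)
          exact pow_le_pow_right₀ hM' (Finset.mem_Ico.1 hk).1
      refine (Finset.sum_le_sum h6).trans ?_
      rw [← Finset.sum_mul, ← Finset.mul_sum]
      refine mul_le_mul_of_nonneg_right (mul_le_mul_of_nonneg_left ?_ hh0) (by positivity)
      rw [Finset.sum_comm, hA]
      refine Finset.sum_le_sum fun v _ => ?_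
      refine Finset.sum_le_sum_of_subset_of_nonneg ?_ fun _ _ _ => abs_nonneg _
      intro k hk
      rw [Finset.mem_range]
      exact (Finset.mem_Ico.1 hk).2
    rw [mul_add, add_mul]
    linarith
  -- the sign
  obtain ⟨s, hs, hsa⟩ : ∃ s : ℝ, (s = 1 ∨ s = -1) ∧ s * (a j : ℝ) = |(a j : ℝ)| := by
    rcases le_total 0 (a j : ℝ) with h0 | h0
    · exact ⟨1, Or.inl rfl, by rw [one_mul, abs_of_nonneg h0]⟩
    · exact ⟨-1, Or.inr rfl, by rw [abs_of_nonpos h0]; ring⟩
  have hs1 : |s| = 1 := by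
    rcases hs with rfl | rfl
    · exact abs_one
    · rw [abs_neg, abs_one]
  refine ⟨s, hs, fun M hM hκM => ?_⟩
  have hM' : (1 : ℝ) ≤ M := by exact_mod_cast hM
  have hM0 : (0 : ℝ) < M := by linarith
  have h1 := hexp M hM
  have h2 : s * LF1 U c M = |(a j : ℝ)| * rho j M + s * (LF1 U c M - (a j : ℝ) * rho j M) := by
    rw [← hsa]; ring
  have h3 : |s * (LF1 U c M - (a j : ℝ) * rho j M)| ≤ h * (A + B') * ((M : ℝ) ^ (j + 1))⁻¹ := by
    rw [abs_mul, hs1, one_mul]; exact h1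
  have h4 := (abs_le.1 h3).1
  have h5 : e * ((M : ℝ) ^ j)⁻¹ ≤ |(a j : ℝ)| * rho j M := by
    calc e * ((M : ℝ) ^ j)⁻¹ = (1 / (D : ℝ)) * (E * ((M : ℝ) ^ j)⁻¹) := by rw [he]; ring
      _ ≤ |(a j : ℝ)| * rho j M := mul_le_mul hja' (rho_ge hM hjJ.le) (by positivity) (abs_nonneg _)
  have h6 : h * (A + B') * ((M : ℝ) ^ (j + 1))⁻¹ ≤ (e / 2) * ((M : ℝ) ^ j)⁻¹ := by
    have h7 : h ≤ e / (2 * (A + B' + 1)) * M :=
      hκM.trans (mul_le_mul_of_nonneg_right (min_le_right _ _) hM0.le)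
    have h8 : h * (A + B') ≤ e / 2 * M := by
      have h9 : h * (A + B' + 1) ≤ e / 2 * M := by
        have h10 := mul_le_mul_of_nonneg_right h7 (show 0 ≤ A + B' + 1 by positivity)
        refine h10.trans (le_of_eq ?_)
        field_simp
      nlinarith
    calc h * (A + B') * ((M : ℝ) ^ (j + 1))⁻¹ ≤ e / 2 * M * ((M : ℝ) ^ (j + 1))⁻¹ :=
          mul_le_mul_of_nonneg_right h8 (by positivity)
      _ = (e / 2) * ((M : ℝ) ^ j)⁻¹ := by
        rw [pow_succ, mul_inv]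
        field_simp
  have h7 : (e / 2) * ((M : ℝ) ^ j)⁻¹ ≤ s * LF1 U c M := by
    rw [h2]; linarith
  refine le_trans ?_ h7
  refine mul_le_mul (min_le_left _ _) ?_ (by positivity) (by positivity)
  apply inv_anti₀ (by positivity)
  exact pow_le_pow_right₀ hM' hjJ.le


end Pool.Agent.L5helper30.CX
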