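import Mathlib
import Pool.Agent.L5helper30.CX.Sign
import Pool.Agent.L5helper30.CX.Ones

/-!
# The main inequality for linear forms in the multiple zeta values `ζ(u b q)`, `u` admissible
-/

set_option autoImplicit false

namespace Pool.Agent.L5helper30.CX

open Filter Topology
open Pool.Agent.L5helper5.CS (T T_nil summable_w H_zero_of_lt val_cons_eq adm_cons val_pos)
open Pool.Agent.H447R2.MZ (H H_nil H_cons H_cons_zero H_cons_succ H_nonneg H_mono Adm val tendsto_H H_le_val)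

lemma LF_le {U : Finset (List ℕ)} (hU : ∀ v ∈ U, Adm (up1 v).reverse) {c : List ℕ → ℤ} {h : ℝ}
    (hc : ∀ v ∈ U, |(c v : ℝ)| ≤ h) {M : ℕ} (hM : 1 ≤ M) : |LF1 U c M| ≤ h * U.card := by
  rw [LF1]
  refine (Finset.abs_sum_le_sum_abs _ _).trans ?_
  have h1 : ∀ v ∈ U, |(c v : ℝ) * T (up1 v).reverse M| ≤ h := by
    intro v hv
    rw [abs_mul, abs_of_nonneg (CX.T_nonneg (hU v hv) hM)]
    have h2 := CX.T_le_one (hU v hv) hM
    have h3 := hc v hv
    have h4 := abs_nonneg (c v : ℝ)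
    have h5 := CX.T_nonneg (hU v hv) hM
    nlinarith
  refine (Finset.sum_le_sum h1).trans ?_
  rw [Finset.sum_const, nsmul_eq_mul, mul_comm]

/-- the linear form as a series -/
lemma series (U : Finset (List ℕ)) (hU : ∀ v ∈ U, Adm (up1 v).reverse) (b : ℕ) (q : List ℕ) (hb : 1 ≤ b)
    (hq : ∀ x ∈ q, 1 ≤ x) (hne : [] ∈ U → 2 ≤ b) (c : List ℕ → ℤ) :
    (Summable fun n : ℕ => H q n * (((n + 1 : ℕ) : ℝ) ^ b)⁻¹ * LF1 U c (n + 1)) ∧
    ∑ v ∈ U, (c v : ℝ) * val ((up1 v).reverse ++ b :: q) =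
      ∑' n : ℕ, H q n * (((n + 1 : ℕ) : ℝ) ^ b)⁻¹ * LF1 U c (n + 1) := by
  have hboth : ∀ v ∈ U, (Summable fun n : ℕ => H q n * (((n + 1 : ℕ) : ℝ) ^ b)⁻¹ * T (up1 v).reverse (n + 1)) ∧
      val ((up1 v).reverse ++ b :: q) = ∑' n : ℕ, H q n * (((n + 1 : ℕ) : ℝ) ^ b)⁻¹ * T (up1 v).reverse (n + 1) := by
    intro v hv
    by_cases hv0 : v = []
    · subst hv0
      have h0 := val_cons_eq (hne hv) hq
      have h1 : (up1 []).reverse = [] := by rw [up1, List.map_nil, List.reverse_nil]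
      rw [h1]
      simp only [T_nil, mul_one]
      exact ⟨h0.2, h0.1⟩
    · have hune : (up1 v).reverse ≠ [] := by
        intro h
        rw [List.reverse_eq_nil_iff, up1, List.map_eq_nil_iff] at h
        exact hv0 h
      refine ⟨Summable.of_nonneg_of_le (fun n => ?_) (fun n => ?_) (summable_w hb hq),
        val_eq (hU v hv) hune hb hq⟩
      · exact mul_nonneg (mul_nonneg (H_nonneg q n) (by positivity)) (CX.T_nonneg (hU v hv) (by omega))
      · exact mul_le_mul_of_nonneg_left (CX.T_le_inv (hU v hv) hune (by omega))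
          (mul_nonneg (H_nonneg q n) (by positivity))
  have hsum := fun v hv => (hboth v hv).1
  have h2 : ∀ n : ℕ, H q n * (((n + 1 : ℕ) : ℝ) ^ b)⁻¹ * LF1 U c (n + 1) =
      ∑ v ∈ U, (c v : ℝ) * (H q n * (((n + 1 : ℕ) : ℝ) ^ b)⁻¹ * T (up1 v).reverse (n + 1)) := by
    intro n
    rw [LF1, Finset.mul_sum]
    refine Finset.sum_congr rfl fun v _ => ?_
    ring
  simp only [h2]
  refine ⟨summable_sum fun v hv => (hsum v hv).mul_left _, ?_⟩
  rw [Summable.tsum_finsetSum fun v hv => (hsum v hv).mul_left _]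
  refine Finset.sum_congr rfl fun v hv => ?_
  rw [tsum_mul_left, (hboth v hv).2]

/-- the main inequality -/
theorem measure1 (U : Finset (List ℕ)) (hU : ∀ v ∈ U, Adm (up1 v).reverse) :
    ∃ κ : ℝ, 0 < κ ∧ ∃ J : ℕ, 1 ≤ J ∧ ∀ (b m : ℕ) (q : List ℕ), 1 ≤ b →
    (∀ x ∈ q, 1 ≤ x) → ([] ∈ U → 2 ≤ b) → ∀ c : List ℕ → ℤ, (∃ v ∈ U, c v ≠ 0) →
    (∀ v ∈ U, |(c v : ℝ)| ≤ κ * max (((List.replicate m 1 ++ q).length : ℝ) + 1) (Real.exp (κ * m / b))) →
    κ * val ((b + J) :: (List.replicate m 1 ++ q)) ≤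
      |∑ v ∈ U, (c v : ℝ) * val ((up1 v).reverse ++ b :: (List.replicate m 1 ++ q))| := by
  obtain ⟨κ0, hκ0, J, hJ1, hs⟩ := sign1 U hU
  obtain ⟨κ1, hκ1, hones⟩ := ones_tail J hJ1 (2 * U.card + 1) (by positivity)
  obtain ⟨κ, hκd⟩ : ∃ κ, κ = min (κ0 / 4) (min κ1 (κ0 * κ1 / 2)) := ⟨_, rfl⟩
  have hκ : 0 < κ := by rw [hκd]; positivity
  have ha : κ ≤ κ0 / 4 := by rw [hκd]; exact min_le_left _ _
  have hb' : κ ≤ κ1 := by rw [hκd]; exact (min_le_right _ _).trans (min_le_left _ _)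
  have hc' : κ ≤ κ0 * κ1 / 2 := by rw [hκd]; exact (min_le_right _ _).trans (min_le_right _ _)
  refine ⟨κ, hκ, J, hJ1, fun b m q' hb hq' hne c hc hcb => ?_⟩
  have hq : ∀ x ∈ List.replicate m 1 ++ q', 1 ≤ x := by
    intro x hx
    rcases List.mem_append.1 hx with h | h
    · rw [List.eq_of_mem_replicate h]
    · exact hq' x h
  have hones' := hones m b q' hb hq'
  revert hcb hq hones'
  generalize List.replicate m 1 ++ q' = q
  intro hcb hq hones
  obtain ⟨hsumLF, h1⟩ := series U hU b q hb hq hne c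
  obtain ⟨h3, h4⟩ := val_cons_eq (show 2 ≤ b + J by omega) hq
  have hb0 : (0 : ℝ) < b := by exact_mod_cast hb
  have hval0 : 0 ≤ val ((b + J) :: q) := (val_pos (show 2 ≤ b + J by omega) hq).le
  -- the linear case
  have lin : ∀ h : ℝ, (∀ v ∈ U, |(c v : ℝ)| ≤ h) → h ≤ κ0 * (q.length + 1) →
      κ * val ((b + J) :: q) ≤ |∑ v ∈ U, (c v : ℝ) * val ((up1 v).reverse ++ b :: q)| := by
    intro h hch hh
    obtain ⟨s, hs1, hsM⟩ := hs c hc h hch
    have hs2 : |s| = 1 := by
      rcases hs1 with rfl | rfl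
      · exact abs_one
      · rw [abs_neg, abs_one]
    have h5 : κ0 * val ((b + J) :: q) ≤ s * ∑' n : ℕ, H q n * (((n + 1 : ℕ) : ℝ) ^ b)⁻¹ * LF1 U c (n + 1) := by
      rw [h3, ← tsum_mul_left, ← tsum_mul_left]
      refine (h4.mul_left κ0).tsum_le_tsum (fun n => ?_) (hsumLF.mul_left s)
      rcases Nat.lt_or_ge n q.length with h6 | h6
      · rw [H_zero_of_lt q n h6]
        simp
      · have h7 := hsM (n + 1) (by omega) (by
          refine hh.trans (mul_le_mul_of_nonneg_left ?_ hκ0.le)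
          have : (q.length : ℝ) ≤ n := by exact_mod_cast h6
          push_cast
          linarith)
        have h8 : (((n + 1 : ℕ) : ℝ) ^ (b + J))⁻¹ = (((n + 1 : ℕ) : ℝ) ^ b)⁻¹ * (((n + 1 : ℕ) : ℝ) ^ J)⁻¹ := by
          rw [pow_add, mul_inv]
        rw [h8]
        calc κ0 * (H q n * ((((n + 1 : ℕ) : ℝ) ^ b)⁻¹ * (((n + 1 : ℕ) : ℝ) ^ J)⁻¹))
            = H q n * (((n + 1 : ℕ) : ℝ) ^ b)⁻¹ * (κ0 * (((n + 1 : ℕ) : ℝ) ^ J)⁻¹) := by ring
          _ ≤ H q n * (((n + 1 : ℕ) : ℝ) ^ b)⁻¹ * (s * LF1 U c (n + 1)) :=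
            mul_le_mul_of_nonneg_left h7 (mul_nonneg (H_nonneg q n) (by positivity))
          _ = _ := by ring
    rw [h1]
    refine le_trans ?_ ((le_abs_self _).trans (le_of_eq ?_)) (b := s * ∑' n : ℕ, H q n * (((n + 1 : ℕ) : ℝ) ^ b)⁻¹ * LF1 U c (n + 1))
    · refine le_trans ?_ h5
      exact mul_le_mul_of_nonneg_right (by linarith) hval0
    · rw [abs_mul, hs2, one_mul]
  rcases le_total (Real.exp (κ * m / b)) ((q.length : ℝ) + 1) with hE | hE
  · rw [max_eq_left hE] at hcb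
    refine lin _ hcb ?_
    exact mul_le_mul_of_nonneg_right (by linarith) (by positivity)
  · rw [max_eq_right hE] at hcb
    obtain ⟨h, hh⟩ : ∃ h, h = κ * Real.exp (κ * m / b) := ⟨_, rfl⟩
    rw [← hh] at hcb
    have hh0 : 0 ≤ h := by rw [hh]; positivity
    have hexp : Real.exp (κ * m / b) ≤ Real.exp (κ1 * m / b) := by
      apply Real.exp_le_exp.2
      apply div_le_div_of_nonneg_right _ hb0.le
      exact mul_le_mul_of_nonneg_right hb' (Nat.cast_nonneg m)
    obtain ⟨x, hx⟩ : ∃ x, x = κ1 * Real.exp (κ1 * m / b) := ⟨_, rfl⟩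
    have hhx : h ≤ κ0 / 2 * x := by
      rw [hh, hx]
      calc κ * Real.exp (κ * m / b) ≤ κ0 * κ1 / 2 * Real.exp (κ1 * m / b) :=
            mul_le_mul hc' hexp (Real.exp_pos _).le (by positivity)
        _ = _ := by ring
    rcases lt_or_ge x 1 with hx1 | hx1
    · refine lin h hcb ?_
      have : (0 : ℝ) ≤ q.length := Nat.cast_nonneg _
      nlinarith
    · obtain ⟨N, hN⟩ : ∃ N, N = ⌊x⌋₊ := ⟨_, rfl⟩
      have hN1 : 1 ≤ N := by
        rw [hN]; exact Nat.le_floor (by exact_mod_cast hx1)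
      have hNx : (N : ℝ) ≤ x := by rw [hN]; exact Nat.floor_le (by linarith)
      have hxN : x < N + 1 := by rw [hN]; exact Nat.lt_floor_add_one x
      have hN1' : (1 : ℝ) ≤ N := by exact_mod_cast hN1
      have hhN : h ≤ κ0 * N := by nlinarith
      have hO := hones N hN1 (by rw [← hx]; exact hNx)
      obtain ⟨s, hs1, hsM⟩ := hs c hc h hcb
      have hs2 : |s| = 1 := by
        rcases hs1 with rfl | rfl
        · exact abs_one
        · rw [abs_neg, abs_one]
      obtain ⟨A, hA⟩ : ∃ A, A = ∑ n ∈ Finset.range N, H q n * (((n + 1 : ℕ) : ℝ) ^ b)⁻¹ := ⟨_, rfl⟩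
      obtain ⟨R, hR⟩ : ∃ R, R = ∑' n : ℕ, H q (n + N) * (((n + N + 1 : ℕ) : ℝ) ^ (b + J))⁻¹ := ⟨_, rfl⟩
      rw [← hA, ← hR] at hO
      have hA0 : 0 ≤ A := by
        rw [hA]
        exact Finset.sum_nonneg fun n _ => mul_nonneg (H_nonneg q n) (by positivity)
      have hR0 : 0 ≤ R := by
        rw [hR]
        exact tsum_nonneg fun n => mul_nonneg (H_nonneg q _) (by positivity)
      have hAR : A ≤ R := by
        have hU0 : (0 : ℝ) ≤ (U.card : ℝ) := Nat.cast_nonneg _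
        have : 1 * A ≤ (2 * U.card + 1) * N * A := by
          apply mul_le_mul_of_nonneg_right _ hA0
          nlinarith
        linarith
      -- the value
      have hv : val ((b + J) :: q) ≤ A + R := by
        rw [h3, ← h4.sum_add_tsum_nat_add N, hA, hR]
        refine add_le_add (Finset.sum_le_sum fun n _ => ?_) le_rfl
        apply mul_le_mul_of_nonneg_left _ (H_nonneg q n)
        apply inv_anti₀ (by positivity)
        exact pow_le_pow_right₀ (by exact_mod_cast (by omega : 1 ≤ n + 1)) (by omega)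
      -- the linear form
      have hS : -(h * U.card) * A + κ0 * R ≤
          s * ∑' n : ℕ, H q n * (((n + 1 : ℕ) : ℝ) ^ b)⁻¹ * LF1 U c (n + 1) := by
        rw [← hsumLF.sum_add_tsum_nat_add N, mul_add]
        refine add_le_add ?_ ?_
        · rw [hA, Finset.mul_sum, Finset.mul_sum]
          refine Finset.sum_le_sum fun n _ => ?_
          have h5 : -(h * U.card) ≤ s * LF1 U c (n + 1) := by
            have h6 := LF_le hU hcb (show 1 ≤ n + 1 by omega)
            have h7 : |s * LF1 U c (n + 1)| ≤ h * U.card := by rw [abs_mul, hs2, one_mul]; exact h6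
            linarith [(abs_le.1 h7).1]
          have h6 := mul_le_mul_of_nonneg_right h5
            (mul_nonneg (H_nonneg q n) (show (0 : ℝ) ≤ (((n + 1 : ℕ) : ℝ) ^ b)⁻¹ by positivity))
          linarith
        · rw [hR, ← tsum_mul_left, ← tsum_mul_left]
          refine (((summable_nat_add_iff N).2 h4).mul_left κ0).tsum_le_tsum (fun n => ?_)
            (((summable_nat_add_iff N).2 hsumLF).mul_left s)
          have h7 := hsM (n + N + 1) (by omega) (by
            refine hhN.trans (mul_le_mul_of_nonneg_left ?_ hκ0.le)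
            exact_mod_cast (by omega : N ≤ n + N + 1))
          have h8 : (((n + N + 1 : ℕ) : ℝ) ^ (b + J))⁻¹ =
              (((n + N + 1 : ℕ) : ℝ) ^ b)⁻¹ * (((n + N + 1 : ℕ) : ℝ) ^ J)⁻¹ := by
            rw [pow_add, mul_inv]
          rw [h8]
          calc κ0 * (H q (n + N) * ((((n + N + 1 : ℕ) : ℝ) ^ b)⁻¹ * (((n + N + 1 : ℕ) : ℝ) ^ J)⁻¹))
              = H q (n + N) * (((n + N + 1 : ℕ) : ℝ) ^ b)⁻¹ * (κ0 * (((n + N + 1 : ℕ) : ℝ) ^ J)⁻¹) := by ring
            _ ≤ H q (n + N) * (((n + N + 1 : ℕ) : ℝ) ^ b)⁻¹ * (s * LF1 U c (n + N + 1)) :=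
              mul_le_mul_of_nonneg_left h7 (mul_nonneg (H_nonneg q _) (by positivity))
            _ = _ := by ring
      have hfin : κ * val ((b + J) :: q) ≤ -(h * U.card) * A + κ0 * R := by
        have hU0 : (0 : ℝ) ≤ (U.card : ℝ) := Nat.cast_nonneg _
        have e1 : h * U.card * A ≤ κ0 / 2 * R := by
          have e2 : h * U.card * A ≤ κ0 * N * U.card * A := by
            apply mul_le_mul_of_nonneg_right _ hA0
            exact mul_le_mul_of_nonneg_right hhN hU0
          have e3 : κ0 * N * U.card * A ≤ κ0 / 2 * ((2 * U.card + 1) * N * A) := by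
            have e4 : 0 ≤ κ0 * N * A := by positivity
            nlinarith
          have e5 := mul_le_mul_of_nonneg_left hO (show 0 ≤ κ0 / 2 by positivity)
          linarith
        have e6 : κ * val ((b + J) :: q) ≤ κ0 / 4 * (A + R) :=
          mul_le_mul ha hv hval0 (by positivity)
        nlinarith
      rw [h1]
      refine (hfin.trans hS).trans ((le_abs_self _).trans (le_of_eq ?_))
      rw [abs_mul, hs2, one_mul]

end Pool.Agent.L5helper30.CX
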